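import Pool.Agent.Helper98.Saw.Final2

/-!
# A lower bound for the displacement of the self-avoiding walk on the honeycomb lattice

For every `n ≥ 2`, the mean-square displacement of the uniformly random `n`-step self-avoiding
walk on the honeycomb lattice is at least `n ^ (4 / 5) / (10 ^ 4 * (log n) ^ (2 / 5))`.
-/

namespace Pool.Agent.Helper98.Kept.DisplacementAllN

open Pool.Agent.Helper98.SawDefs

theorem result (n : ℕ) (hn : 2 ≤ n) :
    (n : ℝ) ^ (4 / 5 : ℝ) / (10 ^ 4 * Real.log n ^ (2 / 5 : ℝ)) ≤ D n :=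
  Pool.Agent.Helper98.Saw.main2 hn

end Pool.Agent.Helper98.Kept.DisplacementAllN
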