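import Pool.Agent.Helper98.Lang.Asm

/-!
# Lang's inequality for almost all integer multiples of an algebraic number

For every real algebraic irrational `ξ` (of any degree), every `ε > 0` and every power `N ^ A`,
almost all of the numbers `a ξ`, `1 ≤ a ≤ N`, satisfy Lang's inequality
`|a ξ - p / q| > c / (q ^ 2 (log q) ^ (1 + ε))` for all `Q ≤ q ≤ N ^ A`: the exceptions are at most
`C c N / (log Q) ^ ε'`, uniformly in `Q ≥ 2`.
-/

set_option autoImplicit false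

namespace Pool.Agent.Results.MP_c307ca_nt.IntegerMultiples

/-- Let `0 ≤ ε' < ε`.  There is `C`, depending on `ε` and `ε'` only, such that for every real
algebraic irrational number `ξ`, every `c > 0` and every real `A`, for all large `N` and all real
`Q ≥ 2`: at most `C c N / (log Q) ^ ε'` of the integers `1 ≤ a ≤ N` are such that `a ξ` admits
integers `p` and `q` with `Q ≤ q ≤ N ^ A` and `|a ξ - p / q| ≤ c / (q ^ 2 (log q) ^ (1 + ε))`. -/
theorem result (ε ε' : ℝ) (hε : 0 < ε) (hε'0 : 0 ≤ ε') (hε' : ε' < ε) :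
    ∃ C : ℝ, ∀ ξ : ℝ, IsAlgebraic ℚ ξ → Irrational ξ → ∀ c A : ℝ, 0 < c →
      ∃ N0 : ℕ, ∀ N : ℕ, N0 ≤ N → ∀ Q : ℝ, 2 ≤ Q →
        ({a : ℕ | 1 ≤ a ∧ a ≤ N ∧ ∃ (p : ℤ) (q : ℕ), Q ≤ q ∧ (q : ℝ) ≤ (N : ℝ) ^ A ∧
          |(a : ℝ) * ξ - (p : ℝ) / (q : ℝ)|
            ≤ c / ((q : ℝ) ^ 2 * Real.log (q : ℝ) ^ (1 + ε))}.ncard : ℝ)
          ≤ C * c * N / Real.log Q ^ ε' :=
  Pool.Agent.Helper98.Lang.finalMultiples ε ε' hε hε'0 hε'

end Pool.Agent.Results.MP_c307ca_nt.IntegerMultiples
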